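import Pool.Agent.W2helper25.AR.Fill

/-!
# Artin groups and the Farrell-Jones conjecture: infinite labels can be replaced by finite ones

`C` is a class of groups with the closure properties of the class of the groups which satisfy the
fibered K- and L-theoretic Farrell-Jones conjecture with finite wreath products.

Let `M` and `M'` be Coxeter matrices on a set of generators of arbitrary cardinality, such that the
finite labels of `M` are also labels of `M'` (in Mathlib the entry `0` of a Coxeter matrix stands for
infinity). If the Artin group of `M'` is in `C`, then so is the Artin group of `M`. More generally one can
impose relations `s ^ p s = 1` on the generators, with even exponents which agree on generators with an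
odd label.

In particular, all Artin groups are in `C` if all Artin groups of finite rank without infinite labels are
in `C`. If the generators are divided into blocks such that the finite labels between different blocks
are `2`, then the Artin group is in `C` as soon as the Artin groups of the blocks are.

Outline of the proof. If `M s t` is infinite, then the Artin group is the amalgamated product of the
groups generated by the generators other than `s` and by those other than `t`. The homomorphism to the
Artin group with a finite label in this place is injective on both factors by van der Lek's theorem on
parabolic subgroups, so that it has a free kernel, and one can apply the permutation lemma.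
-/

set_option autoImplicit false

namespace Pool.Agent.Results.MP_9d1ffa_al.ArtinInfiniteLabels

open Pool.Agent.Y110.FJ (ClosedE)
open Pool.Agent.K7.H87.FJ6 (Sh Adm)

theorem result (C : ∀ (G : Type) [Group G], Prop) (hC : ClosedE C) (S : Type)
    (M M' : CoxeterMatrix S) (p : S → ℕ) (hp : Adm M' p)
    (hM : ∀ s t, M s t ≠ 0 → M' s t = M s t) (hM' : C (Sh M' p)) : C (Sh M p) :=
  Pool.Agent.W2helper25.AR.fill hC hp
    (fun s t => (em (M s t = 0)).imp_right (hM s t)) hM'

end Pool.Agent.Results.MP_9d1ffa_al.ArtinInfiniteLabels
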