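import Pool.Agent.W2helper12.BW.Main

/-!
# Groups of functions with finite range and the Farrell-Jones conjecture

`C` is a class of groups with the closure properties of the class of the groups which satisfy the
fibered K- and L-theoretic Farrell-Jones conjecture with finite wreath products.

Let `A` and `Q` be groups in `C`, and let `Y` be an arbitrary set. We consider groups `G` of pairs `(w, q)`
where `q` is in `Q` and `w` is an element of the unrestricted wreath product of `A` with the symmetric
group of `Y`, i.e. a permutation `w.p` of `Y` together with a function `w.s` from `Y` to `A`. If all the
functions `w.s` have finite range, and if `w.p = 1` whenever `(w, 1)` is in `G`, then `G` is in `C`.

For instance let `Q` act on `Y` in an arbitrary way; then the group of all functions from `Y` to `A` with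
finitely many values, extended by `Q`, is in `C`. In particular for an action of `Q` on a compact totally
disconnected space the group of the locally constant functions with values in `A`, extended by `Q`, is
in `C`. The restricted wreath products are a very small part of this. Functions with infinitely many
values cannot be allowed, because all residually finite groups embed in unrestricted powers.

Outline of the proof. Let `g = (w, q)` be in `G` and let `E` be a finite set of functions. Label the
points of `Y` by the values of `w.s` and of the elements of `E`; there are finitely many labels. The
elements of the group generated by `E` and its conjugate by `g` are determined by their values on
finitely many points, one for each pair of labels of a point and of its preimage. Each such point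
begins a walk on the labels which is eventually periodic in both directions, and the walks map the
situation to functions on the integers which are periodic near both ends, together with the shift. These
functions and shifts form a group in `C`: it is an extension of a restricted direct power of `A` by a
subgroup of a product of two finite wreath products and the integers, and extensions by restricted direct
products are known. So the conjugation by `g` on `E` is realized in a group in `C`, and the realization
criterion for extensions applies.
-/

set_option autoImplicit false

namespace Pool.Agent.Results.MP_9d1ffa_al.FiniteRangeFunctions

open Pool.Agent.Y110.FJ (ClosedE)
open Pool.Agent.Y462.SS (Wr)

theorem result (C : ∀ (G : Type) [Group G], Prop) (hC : ClosedE C) (Y A Q : Type) [Group A]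
    [Group Q] (hA : C A) (hQ : C Q) (G : Subgroup (Wr Y A × Q))
    (hs : ∀ g ∈ G, (Set.range g.1.s).Finite) (hp : ∀ g ∈ G, g.2 = 1 → g.1.p = 1) : C G :=
  Pool.Agent.W2helper12.BW.bool_wr hC hA hQ G hs hp

end Pool.Agent.Results.MP_9d1ffa_al.FiniteRangeFunctions
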