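import Pool.Agent.W2helper32.GP.Ext

/-!
# Extensions whose kernel is a graph product of finitely generated abelian groups

`C` is any class of groups with the closure properties `ClosedE C` which contains the groups `F ⋊ ℤ`
for all free groups `F` and `A ⋊ ℤ` for all finitely generated abelian groups `A`. All this is
published for the class of the groups which satisfy the fibered Farrell-Jones conjecture in algebraic
K- and L-theory (with coefficients and finite wreath products).

Let `Λ` be a finite graph and `N` the graph product over `Λ` of cyclic groups of the orders `n v`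
(`n v = 0`: infinite cyclic). Every graph product of finitely generated abelian groups over a finite
graph has this form, for instance all right-angled Artin groups and all right-angled Coxeter groups.
`LS Λ n` is the group of automorphisms generated by the factor automorphisms, the dominated
transvections, the partial conjugations and the symmetries of the labelled graph. By the theorems of
Laurence (for right-angled Artin groups) and of Corredor and Gutierrez (if all `n v` are zero or prime
powers) it is the full automorphism group. The theorem: if `N` is a normal subgroup of `G`, the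
conjugations by the elements of `G` act on `N` by automorphisms in `LS Λ n`, and `G ⧸ N` is in `C`, then
`G` is in `C`. So `C` is closed under extensions with kernels of this kind, and contains the groups with
a finite normal series whose factors are such graph products.

Outline of the proof. Symmetries are removed by passing to a subgroup of finite index. Let `S` be a
maximal class of vertices for the domination preorder. It is a clique or an independent set of
vertices of infinite order, and its vertices have the same neighbours outside `S`. The kernel `M` of the
retraction of `N` which kills `S` is normal in `G`, and `G ⧸ M` is in `C` by induction, because the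
elementary automorphisms induce elementary automorphisms of the graph product of the other vertices.
`M` is the free product of the conjugates of the group `A` of `S` by representatives of a coset space of
the graph product of the other vertices; this is seen in the semidirect product of a free product of
copies of `A`, indexed by this coset space, and the graph product of the other vertices. If `S` is
independent, `M` is free. If `S` is a clique, `A` is abelian, and the elements of `G` map `A` to
`N`-conjugates of `A`. In both cases the theorem on extensions by free products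
(`Pool.Agent.R684.FP.main_all`) applies to `M`.
-/

set_option autoImplicit false

noncomputable section

namespace Pool.Agent.Results.MP_9d1ffa_al.GraphProductKernels

open Pool.Agent.Y110.FJ (ClosedE)

variable {V : Type} (Λ : SimpleGraph V) (n : V → ℕ)

/-- The graph product over the graph `Λ` of cyclic groups of the orders `n v` (infinite cyclic for
`n v = 0`): the group generated by the vertices with the relations `v ^ n v = 1` and `v w = w v` for
adjacent vertices `v`, `w`. -/
abbrev GraphProduct : Type := PresentedGroup
  {r : FreeGroup V | (∃ v, r = FreeGroup.of v ^ n v) ∨ ∃ v w, Λ.Adj v w ∧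
    r = FreeGroup.of v * FreeGroup.of w * (FreeGroup.of v)⁻¹ * (FreeGroup.of w)⁻¹}

/-- The generator `v`. -/
def gen (v : V) : GraphProduct Λ n := PresentedGroup.of v

/-- `w` dominates `v`: every neighbour of `v` is equal or adjacent to `w`, and `v` has infinite order
or is adjacent to `w`. -/
def Dominated (v w : V) : Prop :=
  v ≠ w ∧ (n v = 0 ∨ Λ.Adj v w) ∧ ∀ u, Λ.Adj v u → u = w ∨ Λ.Adj w u

/-- Factor automorphisms `v ↦ v ^ m`, for one vertex `v`. -/
def IsFactorAut (α : MulAut (GraphProduct Λ n)) : Prop := ∃ (v : V) (m m' : ℤ),
  (n v : ℤ) ∣ m * m' - 1 ∧ α (gen Λ n v) = gen Λ n v ^ m ∧ ∀ u, u ≠ v → α (gen Λ n u) = gen Λ n u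

/-- Dominated transvections `v ↦ v w ^ k`, where `w` dominates `v`. -/
def IsTransvection (α : MulAut (GraphProduct Λ n)) : Prop := ∃ (v w : V) (k : ℤ),
  Dominated Λ n v w ∧ α (gen Λ n v) = gen Λ n v * gen Λ n w ^ k ∧
    ∀ u, u ≠ v → α (gen Λ n u) = gen Λ n u

/-- Partial conjugations `y ↦ v ^ k y v ^ (-k)` for `y ∈ Y`, where `Y` is a union of components of the
graph without `v` and its neighbours. -/
def IsPartialConj (α : MulAut (GraphProduct Λ n)) : Prop := ∃ (v : V) (k : ℤ) (Y : Set V),
  (∀ y ∈ Y, y ≠ v ∧ ¬ Λ.Adj v y) ∧ (∀ y ∈ Y, ∀ z, Λ.Adj y z → z ∈ Y ∨ Λ.Adj v z) ∧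
  (∀ y ∈ Y, α (gen Λ n y) = gen Λ n v ^ k * gen Λ n y * (gen Λ n v ^ k)⁻¹) ∧
  ∀ y, y ∉ Y → α (gen Λ n y) = gen Λ n y

/-- Symmetries of the labelled graph. -/
def IsSymmetry (α : MulAut (GraphProduct Λ n)) : Prop := ∃ σ : Equiv.Perm V,
  (∀ u v, Λ.Adj (σ u) (σ v) ↔ Λ.Adj u v) ∧ (∀ v, n (σ v) = n v) ∧
    ∀ v, α (gen Λ n v) = gen Λ n (σ v)

/-- The group generated by factor automorphisms, dominated transvections, partial conjugations and
symmetries of the labelled graph. -/
def LS : Subgroup (MulAut (GraphProduct Λ n)) := Subgroup.closure
  {α | (IsFactorAut Λ n α ∨ IsTransvection Λ n α ∨ IsPartialConj Λ n α) ∨ IsSymmetry Λ n α}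

/-- **Extensions whose kernel is a graph product of cyclic groups.** -/
theorem result (C : ∀ (G : Type) [Group G], Prop) (hC : ClosedE C)
    (hF : ∀ (X : Type) (α : MulAut (FreeGroup X)),
      C (FreeGroup X ⋊[zpowersHom (MulAut (FreeGroup X)) α] Multiplicative ℤ))
    (hA : ∀ (A : Type) [CommGroup A], Group.FG A → ∀ α : MulAut A,
      C (A ⋊[zpowersHom (MulAut A) α] Multiplicative ℤ))
    (V : Type) [Finite V] (Λ : SimpleGraph V) (n : V → ℕ) (G : Type) [Group G] (N : Subgroup G)
    [N.Normal] (e : GraphProduct Λ n ≃* N)
    (hLS : ∀ g : G, ∃ α ∈ LS Λ n, ∀ y, g * (e y : G) * g⁻¹ = (e (α y) : G))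
    (hQ : C (G ⧸ N)) : C G := by
  have hA' : Pool.Agent.W2helper32.GP.AbC C := by
    intro A iA hcomm hfg α
    let _ : CommGroup A := { iA with mul_comm := hcomm }
    exact hA A hfg α
  have hr : (N.subtype.comp e.toMonoidHom).range = N := by
    rw [MonoidHom.range_comp, MonoidHom.range_eq_top.mpr e.surjective]
    exact (MonoidHom.range_eq_map N.subtype).symm.trans N.range_subtype
  have hn : (N.subtype.comp e.toMonoidHom).range.Normal := by
    rw [hr]
    infer_instance
  have hQ' : C (G ⧸ (N.subtype.comp e.toMonoidHom).range) :=
    Pool.Agent.R941.FJ.C_equiv hC.base (QuotientGroup.quotientMulEquivOfEq hr) hQ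
  exact Pool.Agent.W2helper32.GP.main hC hF hA' V Λ n G (N.subtype.comp e.toMonoidHom)
    (N.subtype_injective.comp e.injective) (hN := hn) hLS hQ'

end Pool.Agent.Results.MP_9d1ffa_al.GraphProductKernels
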