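import Pool.Agent.W2helper34.GT.Fin

/-!
# Linear groups over polynomial rings with composition factors of rank two are Farrell–Jones groups

`C` is a class of groups with the closure properties `ClosedE C` which contains all solvable groups;
by published theorems the class of the groups whose finite wreath products satisfy the K- and
L-theoretic Farrell–Jones conjecture is such a class (solvable groups: Wegner). `K` is a field such
that the groups `GL_n(K)` are in `C`; for the Farrell–Jones class this is known for all algebraic
extensions of `ℚ` and of `F_q(t)` (Rüping).

`O` is a finitely generated `K`-algebra and a domain with a multiplicative degree function whose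
sublevels are finite dimensional over `K` (`DegO K O`), with field of fractions `F`. Examples are the
polynomial rings `K[x_1, …, x_m]` with the total degree (`Pool.Agent.W2helper34.GT.degMv`), the
coordinate rings of affine Weierstrass (elliptic) curves (`Pool.Agent.W2helper34.GT.degW`), and the
rings of regular functions on the complements of ample prime divisors in normal projective varieties.

Theorem. Let `G` be a group which acts faithfully on a finite dimensional vector space `V` over `F` and
preserves a finitely generated `O`-submodule `L` which spans `V`. Suppose that there is a `G`-invariant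
flag `0 = W_0 ≤ W_1 ≤ … ≤ W_k = V` such that each factor `W_(i+1) / W_i` has dimension at most two, or
`G` acts on it by `K`-linear combinations of finitely many operators, or `G` acts on it through a
quotient in `C`. Then `G` is in `C`.

In particular `GL_2(O)` is in `C`, for instance `GL_2(ℚ[x_1, …, x_m])` (see also
`Pool.Agent.W2helper34.GT.gl2` and `gl2_poly`, where solvable groups are not needed, and infinitely many
variables are allowed), and so are all the groups of block triangular matrices over `O` with diagonal
blocks of size at most two. For `m ≥ 2` these groups `GL_2(K[x_1, …, x_m])` are not generated by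
elementary and diagonal matrices (Cohn), so they are not given by an amalgam like Nagao's for `m = 1`.

Outline of the proof. The degree of `F` defines a discrete valuation and a Bruhat–Tits tree `T` for
`GL_2(F)`, constructed here as the graph of the cosets of the subgroup of all `g` with
`2 deg g_ij ≤ deg det g`. The stabilizers of the vertices in a group which preserves a lattice `L` over
`O` consist of elements of bounded degree. As `O` is residually finite dimensional over `K`, for each
bound there is an ideal `I` of `O` of finite codimension such that `G → GL(L / I L)` has no kernel on the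
elements of this degree (the determinant of an element of `G` is a unit, so it has degree zero).
By the closure properties (`Pool.Agent.N24.TR.tree_local`) a group `G` with an action on a tree is in `C`
if for each vertex there is a homomorphism from `G` to a group in `C` which is injective on the
stabilizer. So the image of `G` in the automorphism group of a factor of dimension two is in `C`. The
kernel of the action on all the factors is nilpotent, and the class is closed under extensions
with solvable kernels.
-/

set_option autoImplicit false

namespace Pool.Agent.Results.MP_9d1ffa_al.RankTwoFactors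

open Pool.Agent.Y110.FJ (ClosedE)
open Pool.Agent.W2helper34.GT (DegO)

theorem result (C : ∀ (G : Type) [Group G], Prop) (hC : ClosedE C)
    (hS : ∀ (G : Type) [Group G], Group.IsSolvable G → C G)
    (K : Type) [Field K] (hK : ∀ n, C (GL (Fin n) K))
    (O : Type) [CommRing O] [IsDomain O] [Algebra K O] [Algebra.FiniteType K O] (d : DegO K O)
    (F : Type) [Field F] [Algebra O F] [IsFractionRing O F] [Algebra K F] [IsScalarTower K O F]
    (V : Type) [AddCommGroup V] [Module F V] [Module O V] [IsScalarTower O F V] [Module.Finite F V]
    (L : Submodule O V) (hL : L.FG) (hsp : Submodule.span F (L : Set V) = ⊤)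
    (G : Type) [Group G] (ρ : G →* (V →ₗ[F] V)) (hinj : Function.Injective ρ)
    (hρ : ∀ g, ∀ x ∈ L, ρ g x ∈ L)
    (k : ℕ) (W : ℕ → Submodule F V) (h0 : W 0 = ⊥) (hk : W k = ⊤) (hmono : Monotone W)
    (hW : ∀ i g, ∀ x ∈ W i, ρ g x ∈ W i)
    (h : ∀ i < k,
      Module.finrank F (W (i + 1)) ≤ Module.finrank F (W i) + 2 ∨
      (∃ T : Finset (V →ₗ[F] V), ∀ g : G, ∃ κ : (V →ₗ[F] V) → K,
        ∀ x ∈ W (i + 1), ρ g x - ∑ t ∈ T, algebraMap K F (κ t) • t x ∈ W i) ∨
      ∃ (P : Type) (_ : Group P) (f : G →* P), C P ∧
        ∀ g : G, f g = 1 → ∀ x ∈ W (i + 1), ρ g x - x ∈ W i) : C G := by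
  have hOn : IsNoetherianRing O := Algebra.FiniteType.isNoetherianRing K O
  have hsp' : ∀ v : V, ∃ t : O, t ≠ 0 ∧ t • v ∈ L := by
    intro v
    have hv : v ∈ Submodule.span F (L : Set V) := by rw [hsp]; trivial
    induction hv using Submodule.span_induction with
    | mem x hx => exact ⟨1, one_ne_zero, by rw [one_smul]; exact hx⟩
    | zero => exact ⟨1, one_ne_zero, by rw [one_smul]; exact L.zero_mem⟩
    | add x y _ _ hx hy =>
      obtain ⟨s, hs, hs'⟩ := hx
      obtain ⟨t, ht, ht'⟩ := hy
      refine ⟨s * t, mul_ne_zero hs ht, ?_⟩
      rw [smul_add]
      refine L.add_mem ?_ ?_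
      · rw [mul_comm, mul_smul]
        exact L.smul_mem t hs'
      · rw [mul_smul]
        exact L.smul_mem s ht'
    | smul r x _ hx =>
      obtain ⟨s, hs, hs'⟩ := hx
      obtain ⟨a, b, hb, hr⟩ := Pool.Agent.W2helper34.GT.exists_frac (O := O) r
      refine ⟨b * s, mul_ne_zero hb hs, ?_⟩
      have e : (b * s) • (r • x) = a • (s • x) := by
        rw [← algebraMap_smul F (b * s), ← algebraMap_smul F a, ← algebraMap_smul F s, smul_smul,
          smul_smul, map_mul, hr]
        congr 1
        have := Pool.Agent.W2helper34.GT.am_ne (F := F) hb
        field_simp
      rw [e]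
      exact L.smul_mem a hs'
  refine Pool.Agent.W2helper34.GT.of_factors hC hS ρ hinj k W h0 hk hW fun i hi => ?_
  rcases h i hi with h | ⟨T, hT⟩ | ⟨P, _, f, hP, hf⟩
  · exact Pool.Agent.W2helper34.GT.factor_two d hC hK hS L hL hsp' ρ hρ (W i) (W (i + 1))
      (hmono (Nat.le_succ i)) (hW i) (hW (i + 1)) h
  · choose κ hκ using hT
    exact Pool.Agent.W2helper34.GT.factor_K hC hK ρ (W i) (W (i + 1)) (hW i) (hW (i + 1)) T κ hκ
  · refine ⟨f.ker, inferInstance, ?_, fun g hg x hx => hf g hg x hx⟩
    exact hC.base.of_injective _ _ (QuotientGroup.kerLift f) (QuotientGroup.kerLift_injective f) hP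

end Pool.Agent.Results.MP_9d1ffa_al.RankTwoFactors
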